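import Mathlib
import Pool.Agent.MP_249f74_an.H97.Final

/-!
Ivrii's conjecture, all periods and all dimensions, for boundaries contained in a real algebraic
hypersurface whose top degree form is not divisible by the sum of the squares of the coordinates.
-/

namespace Pool.Agent.Results.MP_249f74_an.AlgebraicBoundary

theorem result (d : ℕ) (hd : 2 ≤ d) (f : EuclideanSpace ℝ (Fin d) → ℝ) (hf : ContDiff ℝ 1 f)
    (P : MvPolynomial (Fin d) ℝ)
    (hP : ¬ (∑ i, MvPolynomial.X i ^ 2) ∣ MvPolynomial.homogeneousComponent P.totalDegree P)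
    (hfP : ∀ x ∈ frontier {x | f x < 0}, MvPolynomial.eval (fun i => x i) P = 0) :
    dimH {q : EuclideanSpace ℝ (Fin d) × EuclideanSpace ℝ (Fin d) |
      f q.1 = 0 ∧ ‖q.2‖ = 1 ∧ inner ℝ q.2 (gradient f q.1) < 0 ∧
      ∃ n : ℕ, 1 ≤ n ∧ ∃ p u : ℕ → EuclideanSpace ℝ (Fin d),
        p 0 = q.1 ∧ u 0 = q.2 ∧ p n = q.1 ∧ u n = q.2 ∧
        ∀ k < n, f (p k) = 0 ∧ ‖u k‖ = 1 ∧ inner ℝ (u k) (gradient f (p k)) < 0 ∧
          (∃ t : ℝ, 0 < t ∧ p (k + 1) = p k + t • u k ∧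
            ∀ s ∈ Set.Ioo (0 : ℝ) t, f (p k + s • u k) < 0) ∧
          u (k + 1) = u k - (2 * inner ℝ (u k) (gradient f (p (k + 1))) /
              ‖gradient f (p (k + 1))‖ ^ 2) • gradient f (p (k + 1))}
      ≤ ((2 * d - 3 : ℕ) : ENNReal) := by
  obtain ⟨n, rfl⟩ : ∃ n, d = n + 1 := ⟨d - 1, by omega⟩
  have h := Pool.Agent.MP_249f74_an.H97.dimH_periodic (n := n) (by omega) hf hP hfP
  rw [show 2 * (n + 1) - 3 = 2 * n - 1 by omega]
  refine (dimH_mono ?_).trans h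
  rintro q ⟨-, -, -, N, hN, p, u, h1, h2, h3, h4, H⟩
  refine ⟨N, hN, p, u, h1, h2, h3, h4, fun k hk => ?_⟩
  obtain ⟨a, b, c, ⟨t, t0, t1, -⟩, e⟩ := H k hk
  exact ⟨a, b, fun h0 => by simp [h0] at c, ⟨t, t0, t1⟩, e⟩

end Pool.Agent.Results.MP_249f74_an.AlgebraicBoundary
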