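import Mathlib
import Pool.Agent.MP_249f74_an.H69.Final

/-!
Ivrii's conjecture for period 4 in every dimension `d ≥ 3`, with the sharp dimension bound.
-/

namespace Pool.Agent.Results.MP_249f74_an.FourPeriodic

theorem result (d : ℕ) (hd : 3 ≤ d) (f : EuclideanSpace ℝ (Fin d) → ℝ) (hf : ContDiff ℝ 3 f) :
    dimH {q : EuclideanSpace ℝ (Fin d) × EuclideanSpace ℝ (Fin d) |
      ∃ p u : ℕ → EuclideanSpace ℝ (Fin d),
        p 0 = q.1 ∧ u 0 = q.2 ∧ p 4 = q.1 ∧ u 4 = q.2 ∧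
        ∀ k < 4, f (p k) = 0 ∧ ‖u k‖ = 1 ∧ inner ℝ (u k) (gradient f (p k)) < 0 ∧
          (∃ t : ℝ, 0 < t ∧ p (k + 1) = p k + t • u k ∧
            ∀ s ∈ Set.Ioo (0 : ℝ) t, f (p k + s • u k) < 0) ∧
          u (k + 1) = u k - (2 * inner ℝ (u k) (gradient f (p (k + 1))) /
              ‖gradient f (p (k + 1))‖ ^ 2) • gradient f (p (k + 1))}
      ≤ ((2 * d - 3 : ℕ) : ENNReal) := by
  have h := Pool.Agent.MP_249f74_an.H69.dimH_four hf (by simpa using hd)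
  rw [finrank_euclideanSpace_fin] at h
  refine (dimH_mono ?_).trans h
  rintro q ⟨p, u, h1, h2, h3, h4, H⟩
  refine ⟨p, u, h1, h2, h3, h4, fun k hk => ?_⟩
  obtain ⟨a, b, c, ⟨t, t0, t1, -⟩, e⟩ := H k hk
  exact ⟨a, b, c, ⟨t, t0, t1⟩, e⟩

end Pool.Agent.Results.MP_249f74_an.FourPeriodic
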