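import Mathlib
import Pool.Agent.MP_249f74_an.H65.Fin
import Pool.Agent.MP_249f74_an.H72.All

/-!
Ivrii's conjecture: the periodic points of a smooth billiard in dimension `d` have Hausdorff
dimension at most `2 d - 3`.
-/

namespace Pool.Agent.Results.MP_249f74_an.Full

open Pool.Agent.MP_249f74_an in
theorem result (d : ℕ) (hd : 2 ≤ d) (f : EuclideanSpace ℝ (Fin d) → ℝ)
    (hf : ContDiff ℝ ((⊤ : ℕ∞) : WithTop ℕ∞) f) :
    dimH {q : EuclideanSpace ℝ (Fin d) × EuclideanSpace ℝ (Fin d) |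
      ∃ n : ℕ, 1 ≤ n ∧ ∃ p u : ℕ → EuclideanSpace ℝ (Fin d),
        p 0 = q.1 ∧ u 0 = q.2 ∧ p n = q.1 ∧ u n = q.2 ∧
        ∀ k < n, f (p k) = 0 ∧ ‖u k‖ = 1 ∧ inner ℝ (u k) (gradient f (p k)) < 0 ∧
          (∃ t : ℝ, 0 < t ∧ p (k + 1) = p k + t • u k ∧
            ∀ s ∈ Set.Ioo (0 : ℝ) t, f (p k + s • u k) < 0) ∧
          u (k + 1) = u k - (2 * inner ℝ (u k) (gradient f (p (k + 1))) /
              ‖gradient f (p (k + 1))‖ ^ 2) • gradient f (p (k + 1))}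
      ≤ ((2 * d - 3 : ℕ) : ENNReal) := by
  have h3 : H90.Final fun d _ _ => 3 ≤ d :=
    H90.an _ _ (H72.up_ok H90.rl_ok) (H72.up_link H90.link_rl)
      (H90.reduce _ (H72.up_ok H90.rl_ok) (H72.conv fun k ι _ _ _ _ _ h =>
        have : CharZero k := (algebraMap k ℝ).charZero
        have : Nontrivial ι := Fintype.one_lt_card_iff_nontrivial.1 (by omega)
        H65.top))
  have h : H72.Dim d := by
    rcases hd.eq_or_lt with rfl | h
    · exact H72.dim_two H96A.planar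
    · exact H72.dim_of_final h3 hd fun _ _ => h
  refine (dimH_mono ?_).trans ((dimH_iUnion _).trans_le (iSup_le fun n => h f hf n))
  rintro q ⟨n, hn, p, u, h1, h2, h3, h4, H⟩
  obtain ⟨n, rfl⟩ : ∃ m, n = m + 1 := ⟨n - 1, by omega⟩
  refine Set.mem_iUnion.2 ⟨n, p, u, h1, h2, h3, h4, fun k hk => ?_⟩
  obtain ⟨a, b, c, ⟨t, t0, t1, -⟩, e⟩ := H k hk
  exact ⟨a, b, c, ⟨t, t0, t1⟩, e, trivial⟩

end Pool.Agent.Results.MP_249f74_an.Full
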